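import Mathlib

set_option autoImplicit false

namespace Pool.Agent.Lib.MP_5551da_co

/-- The h-fold signed sumset of a finite set A in the cyclic group of order n:
all sums of lam(a) * a over a in A, with integer coefficients whose absolute values add up to h. -/
def signedSumset {n : ℕ} (h : ℕ) (A : Finset (ZMod n)) : Set (ZMod n) :=
  {z | ∃ lam : ZMod n → ℤ, ∑ a ∈ A, |lam a| = (h : ℤ) ∧ z = ∑ a ∈ A, lam a • a}

end Pool.Agent.Lib.MP_5551da_co
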