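import Mathlib
import Pool.Agent.Lib.MP_5551da_co.Defs

set_option autoImplicit false

namespace Pool.Agent.Lib.MP_5551da_co

open Finset

lemma pair_mem {n : ℕ} (A : Finset (ZMod n)) (a b : ZMod n) (ha : a ∈ A) (hb : b ∈ A)
    (s t : ℤ) (hs : |s| = 1) (ht : |t| = 1) (h : a ≠ b ∨ s = t) :
    s • a + t • b ∈ signedSumset 2 A := by
  classical
  refine ⟨fun z => (if z = a then s else 0) + (if z = b then t else 0), ?_, ?_⟩
  · have : ∀ z ∈ A, |(if z = a then s else 0) + (if z = b then t else 0)| =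
        (if z = a then 1 else 0) + (if z = b then 1 else 0) := by
      intro z _
      by_cases h1 : z = a <;> by_cases h2 : z = b
      · rcases h with h | h
        · exact (h (h1.symm.trans h2)).elim
        · subst h
          simp only [if_pos h1, if_pos h2]
          rw [← two_mul, abs_mul, hs]
          norm_num
      · simp [if_pos h1, if_neg h2, hs]
      · simp [if_neg h1, if_pos h2, ht]
      · simp [if_neg h1, if_neg h2]
    rw [Finset.sum_congr rfl this, Finset.sum_add_distrib]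
    simp [ha, hb]
  · simp only [add_smul, Finset.sum_add_distrib, ite_smul, zero_smul]
    simp [ha, hb]

lemma sum_mem {n : ℕ} (A : Finset (ZMod n)) (h0 : (0 : ZMod n) ∈ A) (a b : ZMod n)
    (ha : a ∈ A ∨ -a ∈ A) (hb : b ∈ A ∨ -b ∈ A) : a + b ∈ signedSumset 2 A := by
  have hz : (0 : ZMod n) ∈ signedSumset 2 A := by
    simpa using pair_mem A 0 0 h0 h0 1 1 (by simp) (by simp) (Or.inr rfl)
  rcases ha with ha | ha <;> rcases hb with hb | hb
  · simpa using pair_mem A a b ha hb 1 1 (by simp) (by simp) (Or.inr rfl)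
  · by_cases h : a = -b
    · rw [h]; simpa using hz
    · simpa using pair_mem A a (-b) ha hb 1 (-1) (by simp) (by simp) (Or.inl h)
  · by_cases h : -a = b
    · rw [← h]; simpa using hz
    · simpa using pair_mem A (-a) b ha hb (-1) 1 (by simp) (by simp) (Or.inl h)
  · simpa using pair_mem A (-a) (-b) ha hb (-1) (-1) (by simp) (by simp) (Or.inr rfl)

lemma construction (n : ℕ) (s j e : ℤ) (hj : 0 ≤ j) (hsj : j < s) (he0 : 0 ≤ e)
    (he1 : e ≤ 24 * j + 11) (hn : (n : ℤ) + e = 12 * (s ^ 2 - j ^ 2)) (hn0 : 0 < n) :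
    ∃ A : Finset (ZMod n), signedSumset 2 A = Set.univ ∧ (A.card : ℤ) ≤ 3 * s + 15 * j + 11 := by
  classical
  obtain ⟨L, hL⟩ : ∃ L : ℕ, (L : ℤ) = s + 5 * j + 3 := ⟨(s + 5 * j + 3).toNat, by omega⟩
  obtain ⟨h, hh⟩ : ∃ h : ℤ, h = s - j := ⟨_, rfl⟩
  obtain ⟨g, hg⟩ : ∃ g : ℤ, g = 6 * (s + j) + 1 := ⟨_, rfl⟩
  obtain ⟨x, hx⟩ : ∃ x : ℤ, x = 2 * h + e := ⟨_, rfl⟩
  obtain ⟨D, hD⟩ : ∃ D : ℤ, D = -s + 7 * j + 1 - e := ⟨_, rfl⟩
  have hnn : (n : ℤ) = g * (2 * h) - x := by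
    rw [hx, hg, hh]; linarith
  have hzero : ((g * (2 * h) - x : ℤ) : ZMod n) = 0 := by
    rw [← hnn]; simp
  have hzero' : (g : ZMod n) * (2 * (h : ZMod n)) - (x : ZMod n) = 0 := by
    exact_mod_cast hzero
  have hDg : (2 : ZMod n) * (D : ZMod n) = (g : ZMod n) - 2 * (x : ZMod n) - 4 * (h : ZMod n) + 1 := by
    have : 2 * D = g - 2 * x - 4 * h + 1 := by omega
    exact_mod_cast congrArg (Int.cast : ℤ → ZMod n) this
  let A : Finset (ZMod n) :=
    ((range (L + 1)).image (fun i : ℕ => ((((x + 1) / 2 + i - g * h : ℤ)) : ZMod n)) ∪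
      (range (L + 1)).image (fun i : ℕ => ((g * i : ℤ) : ZMod n))) ∪
      (range L).image (fun i : ℕ => ((D + (2 * h + i) + g * (2 * h + i) : ℤ) : ZMod n))
  have h0 : (0 : ZMod n) ∈ A := by
    apply mem_union_left
    apply mem_union_right
    exact mem_image.2 ⟨0, by simp, by simp⟩
  have hX0 : ∀ u : ℤ, x ≤ 2 * u → 2 * u ≤ x + 2 * L → ((u - g * h : ℤ) : ZMod n) ∈ A := by
    intro u h1 h2
    apply mem_union_left
    apply mem_union_left
    refine mem_image.2 ⟨(u - (x + 1) / 2).toNat, mem_range.2 (by omega), ?_⟩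
    congr 2
    omega
  have hX : ∀ u : ℤ, x - 2 * L ≤ 2 * u → 2 * u ≤ x + 2 * L →
      ((u - g * h : ℤ) : ZMod n) ∈ A ∨ -((u - g * h : ℤ) : ZMod n) ∈ A := by
    intro u h1 h2
    by_cases h3 : x ≤ 2 * u
    · exact Or.inl (hX0 u h3 h2)
    · right
      have := hX0 (x - u) (by omega) (by omega)
      convert this using 1
      push_cast
      linear_combination hzero'
  have hY0 : ∀ i : ℤ, 0 ≤ i → i ≤ L → ((g * i : ℤ) : ZMod n) ∈ A := by
    intro i h1 h2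
    apply mem_union_left
    apply mem_union_right
    refine mem_image.2 ⟨i.toNat, mem_range.2 (by omega), ?_⟩
    congr 2
    omega
  have hY : ∀ i : ℤ, -L ≤ i → i ≤ L →
      ((g * i : ℤ) : ZMod n) ∈ A ∨ -((g * i : ℤ) : ZMod n) ∈ A := by
    intro i h1 h2
    by_cases h3 : 0 ≤ i
    · exact Or.inl (hY0 i h3 h2)
    · right
      have := hY0 (-i) (by omega) (by omega)
      convert this using 1
      push_cast
      ring
  have hZ0 : ∀ v : ℤ, 2 * h ≤ v → v ≤ 2 * h + L - 1 → ((D + v + g * v : ℤ) : ZMod n) ∈ A := by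
    intro v h1 h2
    apply mem_union_right
    refine mem_image.2 ⟨(v - 2 * h).toNat, mem_range.2 (by omega), ?_⟩
    have : 2 * h + ((v - 2 * h).toNat : ℤ) = v := by omega
    rw [this]
  have hZ : ∀ v : ℤ, 2 * h - L ≤ v → v ≤ 2 * h + L - 1 →
      ((D + v + g * v : ℤ) : ZMod n) ∈ A ∨ -((D + v + g * v : ℤ) : ZMod n) ∈ A := by
    intro v h1 h2
    by_cases h3 : 2 * h ≤ v
    · exact Or.inl (hZ0 v h3 h2)
    · right
      have := hZ0 (4 * h - 1 - v) (by omega) (by omega)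
      convert this using 1
      push_cast
      linear_combination (-1 : ZMod n) * hDg - 2 * hzero'
  refine ⟨A, ?_, ?_⟩
  · apply Set.eq_univ_of_forall
    intro z
    have : NeZero n := ⟨hn0.ne'⟩
    obtain ⟨u1, hu1⟩ : ∃ u1 : ℤ, u1 = -((x + 2 * L) / 2) := ⟨_, rfl⟩
    obtain ⟨m, hm⟩ : ∃ m : ℕ, m = (z - (u1 : ZMod n)).val := ⟨_, rfl⟩
    have hm1 : m < n := hm ▸ ZMod.val_lt _
    have hm2 : z = (m : ZMod n) + (u1 : ZMod n) := by
      rw [hm]; simp
    have hg0 : 0 < g := by omega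
    obtain ⟨v, hv⟩ : ∃ v : ℤ, v = (m : ℤ) / g := ⟨_, rfl⟩
    obtain ⟨u, hu⟩ : ∃ u : ℤ, u = (m : ℤ) % g + u1 := ⟨_, rfl⟩
    have hv0 : 0 ≤ v := hv ▸ Int.ediv_nonneg (by omega) hg0.le
    have hv1 : v < 2 * h := by
      rw [hv]
      apply Int.ediv_lt_of_lt_mul hg0
      have : (m : ℤ) < n := by exact_mod_cast hm1
      have : 0 ≤ x := by omega
      linarith
    have hu0 : u1 ≤ u := by
      have := Int.emod_nonneg (m : ℤ) hg0.ne'
      omega
    have hu2 : u < u1 + g := by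
      have := Int.emod_lt_of_pos (m : ℤ) hg0
      omega
    have hz : z = (u : ZMod n) + (g : ZMod n) * (v : ZMod n) := by
      have h1 : (m : ℤ) + u1 = u + g * v := by
        have := Int.emod_add_mul_ediv (m : ℤ) g
        rw [hu, hv]; linarith
      rw [hm2]
      exact_mod_cast congrArg (Int.cast : ℤ → ZMod n) h1
    have hcases :
        (x - 2 * L ≤ 2 * (u + x) ∧ 2 * (u + x) ≤ x + 2 * L ∧ -L ≤ v - h ∧ v - h ≤ L) ∨
        (2 * h - L ≤ u - D ∧ u - D ≤ 2 * h + L - 1 ∧ -L ≤ v - u + D ∧ v - u + D ≤ L) ∨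
        (2 * h - L ≤ v + h ∧ v + h ≤ 2 * h + L - 1 ∧ x - 2 * L ≤ 2 * (u - D - v - h) ∧
          2 * (u - D - v - h) ≤ x + 2 * L) ∨
        (2 * h - L ≤ u - x - D ∧ u - x - D ≤ 2 * h + L - 1 ∧ -L ≤ v + 2 * h - u + x + D ∧
          v + 2 * h - u + x + D ≤ L) := by
      omega
    rcases hcases with ⟨h1, h2, h3, h4⟩ | ⟨h1, h2, h3, h4⟩ | ⟨h1, h2, h3, h4⟩ | ⟨h1, h2, h3, h4⟩
    · have := sum_mem A h0 _ _ (hX _ h1 h2) (hY _ h3 h4)
      convert this using 1
      rw [hz]; push_cast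
      linear_combination hzero'
    · have := sum_mem A h0 _ _ (hZ _ h1 h2) (hY _ h3 h4)
      convert this using 1
      rw [hz]; push_cast
      ring
    · have := sum_mem A h0 _ _ (hZ _ h1 h2) (hX _ h3 h4)
      convert this using 1
      rw [hz]; push_cast
      ring
    · have := sum_mem A h0 _ _ (hZ _ h1 h2) (hY _ h3 h4)
      convert this using 1
      rw [hz]; push_cast
      linear_combination (-1 : ZMod n) * hzero'
  · have h1 : A.card ≤ (L + 1) + (L + 1) + L := by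
      refine (card_union_le _ _).trans (Nat.add_le_add ((card_union_le _ _).trans
        (Nat.add_le_add ?_ ?_)) ?_)
      · exact card_image_le.trans (by simp)
      · exact card_image_le.trans (by simp)
      · exact card_image_le.trans (by simp)
    have h2 : (A.card : ℤ) ≤ (L + 1) + (L + 1) + L := by exact_mod_cast h1
    omega

lemma params (n : ℕ) (hn : 0 < n) : ∃ s j e : ℤ, 0 ≤ j ∧ j < s ∧ 0 ≤ e ∧ e ≤ 24 * j + 11 ∧
    (n : ℤ) + e = 12 * (s ^ 2 - j ^ 2) ∧ 12 * (s - 1) ^ 2 < n ∧ j ^ 2 ≤ 2 * (s - 1) := by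
  classical
  have hex : ∃ s : ℕ, n ≤ 12 * s ^ 2 := ⟨n, by nlinarith⟩
  obtain ⟨s, hs1, hs2⟩ : ∃ s : ℕ, n ≤ 12 * (s + 1) ^ 2 ∧ 12 * s ^ 2 < n := by
    have h1 := Nat.find_spec hex
    have h0 : Nat.find hex ≠ 0 := by
      intro h; rw [h] at h1; omega
    obtain ⟨s, hs⟩ := Nat.exists_eq_succ_of_ne_zero h0
    refine ⟨s, by rw [hs] at h1; exact h1, ?_⟩
    have := Nat.find_min hex (m := s) (by omega)
    omega
  obtain ⟨r, hr⟩ : ∃ r : ℕ, n + r = 12 * (s + 1) ^ 2 := ⟨12 * (s + 1) ^ 2 - n, by omega⟩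
  obtain ⟨j, hj⟩ : ∃ j : ℕ, j = Nat.sqrt (r / 12) := ⟨_, rfl⟩
  have h1 : j * j ≤ r / 12 := hj ▸ Nat.sqrt_le _
  have h2 : r / 12 < (j + 1) * (j + 1) := hj ▸ Nat.lt_succ_sqrt _
  have h3 : 12 * (j * j) ≤ r := by omega
  have h4 : r < 12 * ((j + 1) * (j + 1)) := by omega
  have h5 : r < 12 * (2 * s + 1) := by nlinarith
  have h6 : j * j ≤ 2 * s := by omega
  have h3' : 12 * ((j : ℤ) * j) ≤ r := by exact_mod_cast h3
  have h4' : (r : ℤ) < 12 * (((j : ℤ) + 1) * (j + 1)) := by exact_mod_cast h4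
  have h6' : (j : ℤ) * j ≤ 2 * s := by exact_mod_cast h6
  have hr' : (n : ℤ) + r = 12 * ((s : ℤ) + 1) ^ 2 := by exact_mod_cast hr
  have hs2' : 12 * (s : ℤ) ^ 2 < n := by exact_mod_cast hs2
  refine ⟨(s : ℤ) + 1, j, (r : ℤ) - 12 * (j * j), by positivity, ?_, by omega, by nlinarith,
    by nlinarith, by simpa using hs2', by nlinarith⟩
  by_contra hc
  push Not at hc
  nlinarith

theorem upper (n : ℕ) (hn : 0 < n) : ∃ A : Finset (ZMod n), signedSumset 2 A = Set.univ ∧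
    (A.card : ℝ) ≤ Real.sqrt 3 / 2 * Real.sqrt n + 12 * Real.sqrt (Real.sqrt n) + 14 := by
  obtain ⟨s, j, e, hj, hsj, he0, he1, hne, hs, hj2⟩ := params n hn
  obtain ⟨A, hA, hc⟩ := construction n s j e hj hsj he0 he1 hne hn
  refine ⟨A, hA, ?_⟩
  have hc' : (A.card : ℝ) ≤ 3 * s + 15 * j + 11 := by exact_mod_cast hc
  have hs' : 12 * ((s : ℝ) - 1) ^ 2 < n := by exact_mod_cast hs
  have hj2' : (j : ℝ) ^ 2 ≤ 2 * ((s : ℝ) - 1) := by exact_mod_cast hj2
  have hj' : (0 : ℝ) ≤ j := by exact_mod_cast hj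
  have hs0 : (0 : ℝ) ≤ (s : ℝ) - 1 := by
    have : (1 : ℤ) ≤ s := by omega
    have : (1 : ℝ) ≤ s := by exact_mod_cast this
    linarith
  have h1 : 3 * ((s : ℝ) - 1) ≤ Real.sqrt 3 / 2 * Real.sqrt n := by
    have : Real.sqrt 3 / 2 * Real.sqrt n = Real.sqrt (3 * n) / 2 := by
      rw [Real.sqrt_mul (by norm_num)]; ring
    rw [this]
    have : 6 * ((s : ℝ) - 1) ≤ Real.sqrt (3 * n) := Real.le_sqrt_of_sq_le (by nlinarith)
    linarith
  have h2 : 5 / 4 * (j : ℝ) ≤ Real.sqrt (Real.sqrt n) := by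
    apply Real.le_sqrt_of_sq_le
    apply Real.le_sqrt_of_sq_le
    have : ((j : ℝ) ^ 2) ^ 2 ≤ (2 * ((s : ℝ) - 1)) ^ 2 := by
      apply pow_le_pow_left₀ (by positivity) hj2'
    nlinarith
  linarith

end Pool.Agent.Lib.MP_5551da_co
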